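import Pool.Agent.H7.HD.Targets6

/-!
# MP_e37c09_lc: module DZ, the least closed cofinal set is definable
-/

open Ordinal Cardinal Order Set
open scoped ZFSet

universe u

namespace Pool.Agent.H92.HD.DZ

open _root_.HD

theorem rel1 {A : Ordinal.{u} → Prop} (h : DO fun w => A (w 0)) :
    ∃ R : ZFSet.{u} → Prop, (∀ i, _root_.HD.DZ fun v => R (v i)) ∧
      ∀ a : Ordinal.{u}, R a.toZFSet ↔ A a := by
  obtain ⟨Q, hQ, h⟩ := h
  refine ⟨fun x => Q (fun _ => x), fun i => hQ.ren fun _ => i, fun a => ?_⟩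
  exact (h (fun _ => a)).symm

theorem rel2 {A : Ordinal.{u} → Ordinal.{u} → Prop} (h : DO fun w => A (w 0) (w 1)) :
    ∃ R : ZFSet.{u} → ZFSet.{u} → Prop, (∀ i j, _root_.HD.DZ fun v => R (v i) (v j)) ∧
      ∀ a b : Ordinal.{u}, R a.toZFSet b.toZFSet ↔ A a b := by
  obtain ⟨Q, hQ, h⟩ := h
  refine ⟨fun x y => Q (fun n => if n = 0 then x else y), fun i j => ?_, fun a b => ?_⟩
  · refine (hQ.ren fun n => if n = 0 then i else j).congr fun v => ?_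
    have : (fun n : ℕ => if n = 0 then v i else v j) =
        fun n => v (if n = 0 then i else j) := by
      funext n
      split_ifs <;> rfl
    show Q (fun n => if n = 0 then v i else v j) ↔ _
    rw [this]
  · have h1 := h (fun n => if n = 0 then a else b)
    have h2 : (ov fun n : ℕ => if n = 0 then a else b) =
        fun n => if n = 0 then a.toZFSet else b.toZFSet := by
      funext n
      show (if n = 0 then a else b).toZFSet = _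
      split_ifs <;> rfl
    rw [h2] at h1
    exact h1.symm

theorem rel3 {A : Ordinal.{u} → Ordinal.{u} → Ordinal.{u} → Prop}
    (h : DO fun w => A (w 0) (w 1) (w 2)) :
    ∃ R : ZFSet.{u} → ZFSet.{u} → ZFSet.{u} → Prop,
      (∀ i j k, _root_.HD.DZ fun v => R (v i) (v j) (v k)) ∧
      ∀ a b c : Ordinal.{u}, R a.toZFSet b.toZFSet c.toZFSet ↔ A a b c := by
  obtain ⟨Q, hQ, h⟩ := h
  refine ⟨fun x y z => Q (fun n => if n = 0 then x else if n = 1 then y else z),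
    fun i j k => ?_, fun a b c => ?_⟩
  · refine (hQ.ren fun n => if n = 0 then i else if n = 1 then j else k).congr fun v => ?_
    have : (fun n : ℕ => if n = 0 then v i else if n = 1 then v j else v k) =
        fun n => v (if n = 0 then i else if n = 1 then j else k) := by
      funext n
      split_ifs <;> rfl
    show Q (fun n => if n = 0 then v i else if n = 1 then v j else v k) ↔ _
    rw [this]
  · have h1 := h (fun n => if n = 0 then a else if n = 1 then b else c)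
    have h2 : (ov fun n : ℕ => if n = 0 then a else if n = 1 then b else c) =
        fun n => if n = 0 then a.toZFSet else if n = 1 then b.toZFSet else c.toZFSet := by
      funext n
      show (if n = 0 then a else if n = 1 then b else c).toZFSet = _
      split_ifs <;> rfl
    rw [h2] at h1
    exact h1.symm

theorem dz_memk (κ : Ordinal.{u}) (i : ℕ) : _root_.HD.DZ.{u} fun v => v i ∈ κ.toZFSet :=
  (_root_.HD.DZ.ex (R := fun x v => x = κ.toZFSet ∧ v i ∈ x)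
    ((DZ.eqOrd κ 0).and (DZ.mem (i + 1) 0))).congr fun v => by simp

/-- closed cofinal subsets, at the level of sets -/
def MZ (k : ZFSet.{u}) (R1 : ZFSet.{u} → ZFSet.{u} → Prop)
    (R2 R3 : ZFSet.{u} → ZFSet.{u} → ZFSet.{u} → Prop) (R4 : ZFSet.{u} → Prop)
    (n X : ZFSet.{u}) : Prop :=
  (∀ z ∈ X, z ∈ n) ∧ (∀ y ∈ n, ∃ z ∈ X, y ∈ z) ∧ (∀ y ∈ X, y ∈ k → ∀ z ∈ y, z ∈ X) ∧
  (∀ b ∈ X, ¬ b ∈ k → ∀ x ∈ X, R1 b x → ∃ y ∈ X, R2 b x y) ∧
  (∀ b ∈ X, ¬ b ∈ k → ∀ z ∈ X, z ∈ b → ∃ y ∈ X, R3 b z y) ∧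
  (∀ x ∈ n, R4 x → (∀ y ∈ x, ∃ z ∈ X, y ∈ z ∧ z ∈ x) → x ∈ X)

theorem dz_MZ (κ : Ordinal.{u}) {R1 : ZFSet.{u} → ZFSet.{u} → Prop}
    {R2 R3 : ZFSet.{u} → ZFSet.{u} → ZFSet.{u} → Prop} {R4 : ZFSet.{u} → Prop}
    (h1 : ∀ i j, _root_.HD.DZ fun v => R1 (v i) (v j))
    (h2 : ∀ i j k, _root_.HD.DZ fun v => R2 (v i) (v j) (v k))
    (h3 : ∀ i j k, _root_.HD.DZ fun v => R3 (v i) (v j) (v k))
    (h4 : ∀ i, _root_.HD.DZ fun v => R4 (v i)) (i j : ℕ) :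
    _root_.HD.DZ fun v => MZ κ.toZFSet R1 R2 R3 R4 (v i) (v j) := by
  refine DZ.and ?_ (DZ.and ?_ (DZ.and ?_ (DZ.and ?_ (DZ.and ?_ ?_))))
  · exact DZ.allMem j (DZ.mem 0 (i + 1))
  · exact DZ.allMem i (DZ.exMem (j + 1) (DZ.mem 1 0))
  · exact DZ.allMem j ((dz_memk κ 0).imp (DZ.allMem 0 (DZ.mem 0 (j + 2))))
  · exact DZ.allMem j ((dz_memk κ 0).not.imp (DZ.allMem (j + 1)
      ((h1 1 0).imp (DZ.exMem (j + 2) (h2 2 1 0)))))
  · exact DZ.allMem j ((dz_memk κ 0).not.imp (DZ.allMem (j + 1)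
      ((DZ.mem 0 1).imp (DZ.exMem (j + 2) (h3 2 1 0)))))
  · exact DZ.allMem i ((h4 0).imp ((DZ.allMem 0 (DZ.exMem (j + 2)
      ((DZ.mem 1 0).and (DZ.mem 0 2)))).imp (DZ.mem 0 (j + 1))))

theorem key {κ : Ordinal.{u}} {q : Ordinal.{u} → Ordinal.{u}}
    {e m : Ordinal.{u} → Ordinal.{u} → Ordinal.{u}} {R1 : ZFSet.{u} → ZFSet.{u} → Prop}
    {R2 R3 : ZFSet.{u} → ZFSet.{u} → ZFSet.{u} → Prop} {R4 : ZFSet.{u} → Prop}
    (h1 : ∀ b x : Ordinal.{u}, R1 b.toZFSet x.toZFSet ↔ x < q b)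
    (h2 : ∀ b x y : Ordinal.{u}, R2 b.toZFSet x.toZFSet y.toZFSet ↔ y = e b x)
    (h3 : ∀ b x y : Ordinal.{u}, R3 b.toZFSet x.toZFSet y.toZFSet ↔ y = m b x)
    (h4 : ∀ x : Ordinal.{u}, R4 x.toZFSet ↔ x.cof = ℵ₀) (ν : Ordinal.{u}) (X : ZFSet.{u})
    (hX : ∀ z ∈ X, z ∈ ν.toZFSet) :
    MZ κ.toZFSet R1 R2 R3 R4 ν.toZFSet X ↔ Mb κ q e m ν {a | a.toZFSet ∈ X} := by
  have ho : ∀ z ∈ X, ∃ a < ν, z = a.toZFSet := by
    intro z hz
    obtain ⟨a, ha, h⟩ := mem_toZFSet_iff.1 (hX z hz)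
    exact ⟨a, ha, h.symm⟩
  constructor
  · rintro ⟨-, c2, c3, c4, c5, c6⟩
    refine ⟨⟨?_, ?_, ?_, ?_⟩, ?_, ?_⟩
    · intro y hy hyk z hz
      exact c3 _ hy (toZFSet_mem_toZFSet_iff.2 hyk) _ (toZFSet_mem_toZFSet_iff.2 hz)
    · intro b hb hbk x hx hxq
      obtain ⟨y, hy, hy'⟩ := c4 _ hb (fun h => not_lt.2 hbk (toZFSet_mem_toZFSet_iff.1 h)) _ hx
        ((h1 b x).2 hxq)
      obtain ⟨y, -, rfl⟩ := ho y hy
      rw [h2] at hy'
      rw [← hy']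
      exact hy
    · intro b hb hbk z hz hzb
      obtain ⟨y, hy, hy'⟩ := c5 _ hb (fun h => not_lt.2 hbk (toZFSet_mem_toZFSet_iff.1 h)) _ hz
        (toZFSet_mem_toZFSet_iff.2 hzb)
      obtain ⟨y, -, rfl⟩ := ho y hy
      rw [h3] at hy'
      rw [← hy']
      exact hy
    · rintro x hx hlim ⟨z, hz, hxz⟩
      have hzν : z < ν := toZFSet_mem_toZFSet_iff.1 (hX _ hz)
      refine c6 _ (toZFSet_mem_toZFSet_iff.2 (hxz.trans_lt hzν)) ((h4 x).2 hx) ?_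
      intro y hy
      obtain ⟨y, hy', rfl⟩ := mem_toZFSet_iff.1 hy
      obtain ⟨z, hz, hyz, hzx⟩ := hlim y hy'
      exact ⟨_, hz, toZFSet_mem_toZFSet_iff.2 hyz, toZFSet_mem_toZFSet_iff.2 hzx⟩
    · intro z hz
      exact toZFSet_mem_toZFSet_iff.1 (hX _ hz)
    · intro y hy
      obtain ⟨z, hz, hyz⟩ := c2 _ (toZFSet_mem_toZFSet_iff.2 hy)
      obtain ⟨z, -, rfl⟩ := ho z hz
      exact ⟨z, hz, toZFSet_mem_toZFSet_iff.1 hyz⟩
  · intro h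
    refine ⟨hX, ?_, ?_, ?_, ?_, ?_⟩
    · intro y hy
      obtain ⟨y, hy', rfl⟩ := mem_toZFSet_iff.1 hy
      obtain ⟨z, hz, hyz⟩ := h.cf y hy'
      exact ⟨_, hz, toZFSet_mem_toZFSet_iff.2 hyz⟩
    · intro y hy hyk z hz
      obtain ⟨y, -, rfl⟩ := ho y hy
      obtain ⟨z, hz', rfl⟩ := mem_toZFSet_iff.1 hz
      exact h.cld.ini y hy (toZFSet_mem_toZFSet_iff.1 hyk) z hz'
    · intro b hb hbk x hx hR
      obtain ⟨b, -, rfl⟩ := ho b hb
      obtain ⟨x, -, rfl⟩ := ho x hx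
      exact ⟨_, h.cld.ce b hb (not_lt.1 fun h => hbk (toZFSet_mem_toZFSet_iff.2 h)) x hx
        ((h1 b x).1 hR), (h2 _ _ _).2 rfl⟩
    · intro b hb hbk x hx hR
      obtain ⟨b, -, rfl⟩ := ho b hb
      obtain ⟨x, -, rfl⟩ := ho x hx
      exact ⟨_, h.cld.cm b hb (not_lt.1 fun h => hbk (toZFSet_mem_toZFSet_iff.2 h)) x hx
        (toZFSet_mem_toZFSet_iff.1 hR), (h3 _ _ _).2 rfl⟩
    · intro x hx hR hl
      obtain ⟨x, hxν, rfl⟩ := mem_toZFSet_iff.1 hx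
      refine h.cld.oc x ((h4 x).1 hR) ?_ ?_
      · intro y hy
        obtain ⟨z, hz, hyz, hzx⟩ := hl _ (toZFSet_mem_toZFSet_iff.2 hy)
        obtain ⟨z, -, rfl⟩ := ho z hz
        exact ⟨z, hz, toZFSet_mem_toZFSet_iff.1 hyz, toZFSet_mem_toZFSet_iff.1 hzx⟩
      · obtain ⟨z, hz, hxz⟩ := h.cf x hxν
        exact ⟨z, hz, hxz.le⟩

theorem dz : T_DZ.{u} := by
  intro κ q e m hQ
  have d1 : DO.{u} fun w => (fun b x => x < q b) (w 0) (w 1) := by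
    refine (DO.ex (R := fun t w => t = q (w 0) ∧ w 1 < t)
      ((DO.s2 (X := fun b t => t = q b) hQ.dq 1 0).and (DO.lt 2 0))).congr fun w => ?_
    simp
  have d4 : DO.{u} fun w => (fun x : Ordinal.{u} => x.cof = ℵ₀) (w 0) := by
    refine (DO.sub (R := fun x w => Cf x (w 0)) ω (do_Cf All.la 0 1)).congr fun w => ?_
    show (w 0).cof = ℵ₀ ↔ (w 0).cof.ord = ω
    rw [← Cardinal.ord_aleph0, Cardinal.ord_inj]
  obtain ⟨R1, e1, f1⟩ := rel2 (A := fun b x => x < q b) d1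
  obtain ⟨R2, e2, f2⟩ := rel3 (A := fun b x y => y = e b x) hQ.de
  obtain ⟨R3, e3, f3⟩ := rel3 (A := fun b x y => y = m b x) hQ.dm
  obtain ⟨R4, e4, f4⟩ := rel1 (A := fun x => x.cof = ℵ₀) d4
  refine ⟨fun v => v 1 ∈ v 0 ∧ ∀ X, MZ κ.toZFSet R1 R2 R3 R4 (v 0) X → v 1 ∈ X, ?_, ?_⟩
  · refine DZ.and (DZ.mem 1 0) (DZ.all (DZ.imp ?_ (DZ.mem 2 0)))
    exact dz_MZ κ e1 e2 e3 e4 1 0
  · intro w
    constructor
    · rintro ⟨hz, h⟩
      refine ⟨toZFSet_mem_toZFSet_iff.2 hz, fun X hX => ?_⟩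
      exact h _ ((key f1 f2 f3 f4 (w 0) X hX.1).1 hX)
    · rintro ⟨hz, h⟩
      refine ⟨toZFSet_mem_toZFSet_iff.1 hz, fun X hX => ?_⟩
      have hs : {a : Ordinal.{u} | a.toZFSet ∈ os (w 0) X} = X := by
        ext a
        show a.toZFSet ∈ os (w 0) X ↔ _
        rw [ord_mem_os]
        exact ⟨fun h => h.2, fun h => ⟨hX.lt a h, h⟩⟩
      have hsub : ∀ z ∈ os (w 0) X, z ∈ (w 0).toZFSet := by
        intro z hz
        obtain ⟨a, ha, -, rfl⟩ := mem_os.1 hz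
        exact toZFSet_mem_toZFSet_iff.2 ha
      have h5 := h (os (w 0) X) ((key f1 f2 f3 f4 (w 0) _ hsub).2 (by rw [hs]; exact hX))
      exact (ord_mem_os.1 h5).2

end Pool.Agent.H92.HD.DZ
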