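import Pool.Agent.H7.HD.Targets8
import Pool.Agent.H2.HD.UV

/-!
# Module PC: positive sets at small cofinality
-/

open Ordinal Cardinal Order Set
open scoped ZFSet

universe u

namespace Pool.Agent.H92.HD

open _root_.HD

theorem pc : T_PC.{u} := by
  intro N ν S hN hlim hpos
  by_contra hcon
  push Not at hcon
  obtain ⟨g, hg1, hg2, hg3⟩ := Pool.Agent.H2.HD.UV.exists_seq hlim
  have hC : Clb ν {x | (∃ i < ν.cof.ord, x = g i + 1) ∨
      ∀ y < x, ∃ i < ν.cof.ord, y < g i ∧ g i < x} := by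
    refine ⟨?_, ?_⟩
    · intro a ha
      obtain ⟨i, hi, h1⟩ := hg3 a ha
      exact ⟨g i + 1, hlim.add_one_lt (hg1 i hi), h1.trans (_root_.lt_add_one _),
        Or.inl ⟨i, hi, rfl⟩⟩
    · intro x _ _ h
      right
      intro y hy
      obtain ⟨z, hz, hyz, -⟩ := h y hy
      obtain ⟨z', hz', hzz', hz'C⟩ := h z hz
      rcases hz'C with ⟨i, hi, rfl⟩ | h1
      · exact ⟨i, hi, lt_of_lt_of_le hyz (Order.lt_add_one_iff.1 hzz'),
          (_root_.lt_add_one _).trans hz'⟩
      · obtain ⟨i, hi, h2, h3⟩ := h1 z hzz'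
        exact ⟨i, hi, hyz.trans h2, h3.trans hz'⟩
  obtain ⟨b, hb, hbC, -, hbcf⟩ := hpos _ hC
  have hbN : b.cof = N := Cardinal.ord_injective hbcf
  rcases hbC with ⟨i, hi, rfl⟩ | h1
  · rw [Ordinal.cof_add_one] at hbN
    have := hN.aleph0_le
    rw [← hbN] at this
    exact absurd this (not_le.2 Cardinal.one_lt_aleph0)
  · obtain ⟨i0, hi0, hbi0⟩ := hg3 b hb
    have hcard : i0.card < b.cof := by
      rw [hbN]
      exact lt_of_lt_of_le (Cardinal.lt_ord.1 hi0) hcon
    have hb0 : 0 < b := by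
      rw [pos_iff_ne_zero]
      rintro rfl
      rw [Ordinal.cof_zero] at hcard
      exact absurd hcard not_lt_zero
    classical
    obtain ⟨s, hs, hs2⟩ := Pool.Agent.H3.HD.exists_bound hcard
      (fun i => if g i < b then g i else 0) (fun i _ => by
        show (if g i < b then g i else 0) < b
        split_ifs with h
        · exact h
        · exact hb0)
    obtain ⟨i, hi, h2, h3⟩ := h1 s hs
    have hii0 : i < i0 := by
      by_contra h4
      rcases (not_lt.1 h4).eq_or_lt with h5 | h5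
      · rw [h5] at hbi0
        exact absurd h3 (not_lt.2 hbi0.le)
      · exact absurd (h3.trans hbi0) (not_lt.2 (hg2 i0 hi0 i hi h5).le)
    have h4 := hs2 i hii0
    rw [if_pos h3] at h4
    exact absurd h2 (not_lt.2 h4)

end Pool.Agent.H92.HD
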