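import Pool.Agent.H7.HD.Targets6

/-!
# MP_e37c09_lc: module ME, almost all images are closed cofinal sets
-/

open Ordinal Cardinal Order Set
open scoped ZFSet

universe u

namespace Pool.Agent.H92.HD.ME

open _root_.HD

theorem me : T_CL.{u} → T_CB.{u} → T_ME.{u} := by
  intro hCL hCB K lam q e m f n hK hK0 hKl hEM hS hn
  obtain ⟨C1, hC1, hC1'⟩ := hCL K lam q e m f hK hK0 hKl hEM hS
  have h1 : ∀ x, x < K.ord → ∃ w, w < K.ord ∧ f x < n w := by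
    intro x hx
    obtain ⟨w, hw, hw'⟩ := hn.unb (f x) (hS.lt x hx)
    exact ⟨w, hw, hw'⟩
  choose! w hw hw' using h1
  have h2 : ∀ z, z < lam → ∃ i, i < K.ord ∧ f i = z := by
    intro z hz
    obtain ⟨x, hx, hx'⟩ := hS.onto z hz
    exact ⟨x, hx, hx'⟩
  choose! i hi hi' using h2
  have hC2 := hCB K hK hK0 (fun x _ => max (w x) (i (n x)))
    (fun x hx y hy => max_lt (hw x hx) (hi (n x) (hn.lt x hx)))
  refine ⟨_, Pool.Agent.H68.HD.ZH.inter2 (by rwa [hK.cof_ord]) hC1 hC2, ?_⟩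
  rintro γ ⟨hγ1, hγ0, hγ2⟩ hγK hγc
  have hlim : IsSuccLimit γ := (Ordinal.one_lt_cof_iff).1 (Cardinal.one_lt_aleph0.trans hγc)
  refine ⟨hC1' γ hγ1 hγK hγc, ?_, ?_⟩
  · rintro z ⟨x, hx, rfl⟩
    have hx' : x < γ := hx
    have hxK := hx'.trans hγK
    have hwγ : w x < γ := lt_of_le_of_lt (le_max_left _ _) (hγ2 x hx' x hx')
    exact (hw' x hxK).trans (hn.mono _ _ hwγ hγK)
  · intro y hy
    obtain ⟨z, hz, hyz⟩ := hn.cont γ hγK hlim y hy
    have hzK := hz.trans hγK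
    have hiγ : i (n z) < γ := lt_of_le_of_lt (le_max_right _ _) (hγ2 z hz z hz)
    refine ⟨n z, ⟨i (n z), hiγ, hi' _ (hn.lt z hzK)⟩, hyz⟩

end Pool.Agent.H92.HD.ME
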